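import Pool.Agent.Q86.EM.Stm2

/-!
# Limits of integrals against the approximations of the indicator of a compact set
-/

set_option autoImplicit false

namespace Pool.Agent.Q65.EM

open MeasureTheory Set Filter Topology
open scoped ENNReal InnerProductSpace ContDiff
open Pool.Agent.Q86.EM

variable {κ : Type} [Fintype κ]

theorem pow_exp (m : ℕ) (b : ℝ) (hb : 0 < b) : ∃ C : ℝ, 0 < C ∧ ∀ t : ℝ, 0 ≤ t →
    (1 + t) ^ m * Real.exp (-(2 * b) * t ^ 2) ≤ C * Real.exp (-b * t ^ 2) := by
  refine ⟨m.factorial * Real.exp (1 + 1 / (4 * b)), by positivity, fun t ht => ?_⟩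
  have h1 : (1 + t) ^ m ≤ m.factorial * Real.exp (1 + t) := by
    have := Real.pow_div_factorial_le_exp (1 + t) (by linarith) m
    rwa [div_le_iff₀ (by positivity), mul_comm] at this
  have h2 : Real.exp (1 + t) ≤ Real.exp (1 + 1 / (4 * b)) * Real.exp (b * t ^ 2) := by
    rw [← Real.exp_add, Real.exp_le_exp]
    have h3 : b * t ^ 2 + 1 / (4 * b) - t = b * (t - 1 / (2 * b)) ^ 2 := by
      field_simp
      ring
    have h4 : 0 ≤ b * (t - 1 / (2 * b)) ^ 2 := by positivity
    linarith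
  have h5 : Real.exp (b * t ^ 2) * Real.exp (-(2 * b) * t ^ 2) = Real.exp (-b * t ^ 2) := by
    rw [← Real.exp_add]
    congr 1
    ring
  calc (1 + t) ^ m * Real.exp (-(2 * b) * t ^ 2)
      ≤ m.factorial * (Real.exp (1 + 1 / (4 * b)) * Real.exp (b * t ^ 2)) *
          Real.exp (-(2 * b) * t ^ 2) :=
        mul_le_mul_of_nonneg_right (h1.trans (mul_le_mul_of_nonneg_left h2 (by positivity)))
          (Real.exp_pos _).le
    _ = m.factorial * Real.exp (1 + 1 / (4 * b)) *
          (Real.exp (b * t ^ 2) * Real.exp (-(2 * b) * t ^ 2)) := by ring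
    _ = m.factorial * Real.exp (1 + 1 / (4 * b)) * Real.exp (-b * t ^ 2) := by rw [h5]

theorem dist_lower {D : Set (Eu κ)} (hD : IsCompact D) (hne : D.Nonempty) :
    ∃ R : ℝ, 0 ≤ R ∧ ∀ x : Eu κ, ‖x‖ ^ 2 / 2 - R ^ 2 ≤ Metric.infDist x D ^ 2 := by
  obtain ⟨R, hR⟩ := hD.isBounded.exists_norm_le
  have hR0 : 0 ≤ R := by
    obtain ⟨p, hp⟩ := hne
    exact (norm_nonneg p).trans (hR p hp)
  refine ⟨R, hR0, fun x => ?_⟩
  obtain ⟨p, hp, hpd⟩ := hD.exists_infDist_eq_dist hne x
  have h1 : ‖x‖ ≤ Metric.infDist x D + R := by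
    rw [hpd, dist_eq_norm]
    calc ‖x‖ = ‖(x - p) + p‖ := by rw [sub_add_cancel]
      _ ≤ ‖x - p‖ + ‖p‖ := norm_add_le _ _
      _ ≤ ‖x - p‖ + R := by linarith [hR p hp]
  have h2 : 0 ≤ Metric.infDist x D := Metric.infDist_nonneg
  have h3 : ‖x‖ ^ 2 ≤ (Metric.infDist x D + R) ^ 2 := pow_le_pow_left₀ (norm_nonneg _) h1 2
  nlinarith [sq_nonneg (Metric.infDist x D - R)]

theorem dom_int {D : Set (Eu κ)} (hD : IsCompact D) (hne : D.Nonempty) (a : ℝ) (ha : 0 < a)
    (m : ℕ) : Integrable fun x : Eu κ => (1 + ‖x‖) ^ m *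
      Real.exp (-(a / 2 * Metric.infDist x D ^ 2)) := by
  obtain ⟨R, hR0, hR⟩ := dist_lower hD hne
  obtain ⟨C, hC0, hC⟩ := pow_exp m (a / 8) (by positivity)
  have hi := (Pool.Agent.H888R2.KT.N0x.gauss_int (κ := κ) (a / 8) (by positivity)).const_mul
    (Real.exp (a / 2 * R ^ 2) * C)
  refine hi.mono' ?_ (Filter.Eventually.of_forall fun x => ?_)
  · have hc : Continuous fun x : Eu κ => (1 + ‖x‖) ^ m *
        Real.exp (-(a / 2 * Metric.infDist x D ^ 2)) := by
      have h1 : Continuous fun x : Eu κ => Metric.infDist x D := Metric.continuous_infDist_pt D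
      fun_prop
    exact hc.aestronglyMeasurable
  · rw [Real.norm_eq_abs, abs_of_nonneg (by positivity)]
    have h1 : Real.exp (-(a / 2 * Metric.infDist x D ^ 2)) ≤
        Real.exp (a / 2 * R ^ 2) * Real.exp (-(2 * (a / 8)) * ‖x‖ ^ 2) := by
      rw [← Real.exp_add, Real.exp_le_exp]
      have := mul_le_mul_of_nonneg_left (hR x) (by positivity : 0 ≤ a / 2)
      linarith
    calc (1 + ‖x‖) ^ m * Real.exp (-(a / 2 * Metric.infDist x D ^ 2))
        ≤ (1 + ‖x‖) ^ m * (Real.exp (a / 2 * R ^ 2) * Real.exp (-(2 * (a / 8)) * ‖x‖ ^ 2)) :=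
          mul_le_mul_of_nonneg_left h1 (by positivity)
      _ = Real.exp (a / 2 * R ^ 2) * ((1 + ‖x‖) ^ m * Real.exp (-(2 * (a / 8)) * ‖x‖ ^ 2)) := by
          ring
      _ ≤ Real.exp (a / 2 * R ^ 2) * (C * Real.exp (-(a / 8) * ‖x‖ ^ 2)) :=
          mul_le_mul_of_nonneg_left (hC _ (norm_nonneg _)) (Real.exp_pos _).le
      _ = Real.exp (a / 2 * R ^ 2) * C * Real.exp (-(a / 8) * ‖x‖ ^ 2) := by ring

theorem Ap_cont {D : Set (Eu κ)} {a : ℝ} {V : Eu κ → ℝ} (hV : Ap D a V) : Continuous V :=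
  hV.htg.1.continuous

theorem lmb : S_LMB := by
  intro κ _ D hD hne A U hA hA0 hU g B m hg hgB
  have hmeas : ∀ j, AEStronglyMeasurable (fun x => g x * Real.exp (-U j x)) volume := fun j =>
    (hg.mul (Ap_cont (hU j)).neg.rexp.measurable).aestronglyMeasurable
  have hbd : ∀ (j : ℕ) (a : ℝ), a ≤ A j → ∀ x, ‖g x * Real.exp (-U j x)‖ ≤
      |B| * ((1 + ‖x‖) ^ m * Real.exp (-(a / 2 * Metric.infDist x D ^ 2))) := by
    intro j a ha x
    rw [norm_mul, Real.norm_eq_abs, Real.norm_eq_abs, Real.abs_exp, ← mul_assoc]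
    have h1 : |g x| ≤ |B| * (1 + ‖x‖) ^ m :=
      (hgB x).trans (mul_le_mul_of_nonneg_right (le_abs_self _) (by positivity))
    refine mul_le_mul h1 (Real.exp_le_exp.2 (neg_le_neg ?_)) (Real.exp_pos _).le (by positivity)
    refine le_trans ?_ ((hU j).lo x)
    exact mul_le_mul_of_nonneg_right (by linarith) (sq_nonneg _)
  refine ⟨fun j => ((dom_int hD hne (A j) (hA0 j) m).const_mul |B|).mono' (hmeas j)
    (Filter.Eventually.of_forall (hbd j (A j) le_rfl)), ?_⟩
  rw [← integral_indicator hD.measurableSet]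
  refine tendsto_integral_filter_of_dominated_convergence
    (fun x => |B| * ((1 + ‖x‖) ^ m * Real.exp (-(1 / 2 * Metric.infDist x D ^ 2))))
    (Filter.Eventually.of_forall hmeas) ?_ ((dom_int hD hne 1 one_pos m).const_mul |B|) ?_
  · filter_upwards [hA.eventually_ge_atTop 1] with j hj
    exact Filter.Eventually.of_forall (hbd j 1 hj)
  · refine Filter.Eventually.of_forall fun x => ?_
    by_cases hx : x ∈ D
    · rw [indicator_of_mem hx]
      have h1 : Tendsto (fun j => U j x) atTop (𝓝 0) := by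
        have h2 : Tendsto (fun j => 1 / A j) atTop (𝓝 0) := by
          simp only [one_div]
          exact hA.inv_tendsto_atTop
        refine squeeze_zero (fun j => ?_) (fun j => ?_) h2
        · have := (hU j).lo x
          rw [Metric.infDist_zero_of_mem hx] at this
          linarith
        · have := (hU j).hi x
          rw [Metric.infDist_zero_of_mem hx] at this
          linarith
      have h3 : Tendsto (fun j => g x * Real.exp (-U j x)) atTop (𝓝 (g x * Real.exp (-0))) :=
        (Real.continuous_exp.continuousAt.tendsto.comp h1.neg).const_mul _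
      rwa [neg_zero, Real.exp_zero, mul_one] at h3
    · rw [indicator_of_notMem hx]
      have hd : 0 < Metric.infDist x D :=
        (hD.isClosed.notMem_iff_infDist_pos hne).1 hx
      have h1 : Tendsto (fun j => U j x) atTop atTop := by
        refine tendsto_atTop_mono (fun j => (hU j).lo x) ?_
        have h2 : Tendsto (fun j => Metric.infDist x D ^ 2 / 2 * A j) atTop atTop :=
          hA.const_mul_atTop (by positivity)
        refine h2.congr fun j => ?_
        ring
      have h3 : Tendsto (fun j => g x * Real.exp (-U j x)) atTop (𝓝 (g x * 0)) :=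
        (Real.tendsto_exp_atBot.comp (tendsto_neg_atTop_atBot.comp h1)).const_mul _
      rwa [mul_zero] at h3

end Pool.Agent.Q65.EM

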