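import Pool.Agent.Q86.EM.Stm
import Pool.Agent.H212R2.KLS.T1

/-!
# The Gaussian regularisation of a log-concave density
-/

set_option autoImplicit false

namespace Pool.Agent.Q65.EM

open MeasureTheory Set Filter Topology
open scoped ENNReal InnerProductSpace ContDiff
open Pool.Agent.H888R2.KT (LC pst gs zz gc)
open Pool.Agent.H212R2.KLS (mu Bdd)
open Pool.Agent.Q86.EM

variable {κ : Type} [Fintype κ]

theorem log_zz_deriv {ρ : Eu κ → ℝ} (hρ : LC ρ) (h : ℝ) (hh : 0 < h) (y : Eu κ) :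
    DifferentiableAt ℝ (fun y => Real.log (zz h ρ y)) y ∧
    ∀ w, fderiv ℝ (fun y => Real.log (zz h ρ y)) y w =
      h⁻¹ * (pst h ρ (fun x => ⟪x, w⟫_ℝ) y - ⟪y, w⟫_ℝ) := by
  have hz := Pool.Agent.H888R2.KT.N3x.zz_pos' hρ h y
  have h2 := Pool.Agent.H888R2.KT.N3x.main hρ h hh (fun _ => 1) continuous_const y
  have e2 : (fun y : Eu κ =>
      ∫ x, (1 : ℝ) * Real.exp (-(‖x - y‖ ^ 2 / (2 * h))) ∂(mu ρ)) = zz h ρ := by
    funext z
    unfold zz
    simp only [one_mul]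
  rw [e2] at h2
  have h3 := h2.log hz.ne'
  refine ⟨h3.differentiableAt, fun w => ?_⟩
  rw [h3.fderiv, _root_.smul_apply,
    Pool.Agent.H888R2.KT.N3x.main_apply hρ h (fun _ => 1) continuous_const y w, smul_eq_mul]
  simp only [one_mul]
  have e3 : ∫ x, Real.exp (-(‖x - y‖ ^ 2 / (2 * h))) ∂(mu ρ) = zz h ρ y := rfl
  rw [e3]
  unfold pst
  field_simp

theorem log_zz_smooth {ρ : Eu κ → ℝ} (hρ : LC ρ) (h : ℝ) (hh : 0 < h) (n : ℕ) :
    ContDiff ℝ ((n : WithTop ℕ∞) + 1) (fun y => Real.log (zz h ρ y)) := by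
  rw [contDiff_succ_iff_fderiv]
  refine ⟨fun y => (log_zz_deriv hρ h hh y).1, by simp, ?_⟩
  rw [contDiff_clm_apply_iff]
  intro w
  have e : (fun y => fderiv ℝ (fun y => Real.log (zz h ρ y)) y w) =
      fun y => h⁻¹ * (pst h ρ (fun x => ⟪x, w⟫_ℝ) y - ⟪y, w⟫_ℝ) :=
    funext fun y => (log_zz_deriv hρ h hh y).2 w
  rw [e]
  refine contDiff_const.mul ((Pool.Agent.H888R2.KT.N4x.smooth hρ h hh n _
    (Pool.Agent.H888R2.KT.N4x.cin w)).sub ?_)
  exact contDiff_id.inner ℝ contDiff_const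

theorem norm_conv (a b : Eu κ) (t : ℝ) (h0 : 0 ≤ t) (h1 : t ≤ 1) :
    ‖(1 - t) • a + t • b‖ ^ 2 ≤ (1 - t) * ‖a‖ ^ 2 + t * ‖b‖ ^ 2 := by
  have e1 : ‖(1 - t) • a + t • b‖ ≤ (1 - t) * ‖a‖ + t * ‖b‖ := by
    refine (norm_add_le _ _).trans ?_
    rw [norm_smul, norm_smul, Real.norm_eq_abs, Real.norm_eq_abs, abs_of_nonneg h0,
      abs_of_nonneg (sub_nonneg.2 h1)]
  have e2 : ‖(1 - t) • a + t • b‖ ^ 2 ≤ ((1 - t) * ‖a‖ + t * ‖b‖) ^ 2 :=
    pow_le_pow_left₀ (norm_nonneg _) e1 2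
  have e3 : (1 - t) * ‖a‖ ^ 2 + t * ‖b‖ ^ 2 - ((1 - t) * ‖a‖ + t * ‖b‖) ^ 2 =
      t * (1 - t) * (‖a‖ - ‖b‖) ^ 2 := by ring
  have e4 : 0 ≤ t * (1 - t) * (‖a‖ - ‖b‖) ^ 2 :=
    mul_nonneg (mul_nonneg h0 (sub_nonneg.2 h1)) (sq_nonneg _)
  linarith

theorem zz_lint {ρ : Eu κ → ℝ} (hρ : LC ρ) (h : ℝ) (y : Eu κ) :
    ENNReal.ofReal (zz h ρ y) =
      ∫⁻ x, ENNReal.ofReal (ρ x * Real.exp (-(‖x - y‖ ^ 2 / (2 * h)))) := by
  have i1 : Integrable (fun x : Eu κ => Real.exp (-(‖x - y‖ ^ 2 / (2 * h)))) (mu ρ) :=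
    Pool.Agent.H888R2.KT.N3x.integ hρ (by fun_prop)
  have hm : Measurable fun x : Eu κ => ENNReal.ofReal (Real.exp (-(‖x - y‖ ^ 2 / (2 * h)))) :=
    (by fun_prop : Continuous fun x : Eu κ =>
      Real.exp (-(‖x - y‖ ^ 2 / (2 * h)))).measurable.ennreal_ofReal
  unfold zz
  rw [ofReal_integral_eq_lintegral_ofReal i1
    (Filter.Eventually.of_forall fun x => (Real.exp_pos _).le)]
  unfold mu
  rw [lintegral_withDensity_eq_lintegral_mul _ hρ.meas.ennreal_ofReal hm]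
  refine lintegral_congr fun x => ?_
  rw [Pi.mul_apply, ENNReal.ofReal_mul (hρ.nonneg x)]

theorem zz_logc {ρ : Eu κ → ℝ} (hρ : LC ρ) (h : ℝ) (hh : 0 < h) (p q : Eu κ) (t : ℝ) (h0 : 0 < t)
    (h1 : t < 1) : zz h ρ p ^ (1 - t) * zz h ρ q ^ t ≤ zz h ρ ((1 - t) • p + t • q) := by
  have hz := fun y => Pool.Agent.H888R2.KT.N3x.zz_pos' hρ h y
  have t1 : 0 < 1 - t := by linarith
  have hm : ∀ y : Eu κ, Measurable fun x : Eu κ =>
      ENNReal.ofReal (ρ x * Real.exp (-(‖x - y‖ ^ 2 / (2 * h)))) := fun y =>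
    (hρ.meas.mul (by fun_prop : Continuous fun x : Eu κ =>
      Real.exp (-(‖x - y‖ ^ 2 / (2 * h)))).measurable).ennreal_ofReal
  have key := Pool.Agent.H212R2.KLS.PL (volume : Measure (Eu κ)) t h0 h1 _ _ _ (hm p) (hm q)
    (hm ((1 - t) • p + t • q)) (fun x y => by
      have b1 : 0 ≤ ρ x * Real.exp (-(‖x - p‖ ^ 2 / (2 * h))) :=
        mul_nonneg (hρ.nonneg x) (Real.exp_pos _).le
      have b2 : 0 ≤ ρ y * Real.exp (-(‖y - q‖ ^ 2 / (2 * h))) :=
        mul_nonneg (hρ.nonneg y) (Real.exp_pos _).le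
      rw [ENNReal.ofReal_rpow_of_nonneg b1 t1.le, ENNReal.ofReal_rpow_of_nonneg b2 h0.le,
        ← ENNReal.ofReal_mul (Real.rpow_nonneg b1 _)]
      refine ENNReal.ofReal_le_ofReal ?_
      rw [Real.mul_rpow (hρ.nonneg x) (Real.exp_pos _).le,
        Real.mul_rpow (hρ.nonneg y) (Real.exp_pos _).le, ← Real.exp_mul, ← Real.exp_mul]
      have e1 : ρ x ^ (1 - t) * Real.exp (-(‖x - p‖ ^ 2 / (2 * h)) * (1 - t)) *
          (ρ y ^ t * Real.exp (-(‖y - q‖ ^ 2 / (2 * h)) * t)) =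
          ρ x ^ (1 - t) * ρ y ^ t * Real.exp (-(((1 - t) * ‖x - p‖ ^ 2 + t * ‖y - q‖ ^ 2) /
            (2 * h))) := by
        have e2 : Real.exp (-(((1 - t) * ‖x - p‖ ^ 2 + t * ‖y - q‖ ^ 2) / (2 * h))) =
            Real.exp (-(‖x - p‖ ^ 2 / (2 * h)) * (1 - t)) *
              Real.exp (-(‖y - q‖ ^ 2 / (2 * h)) * t) := by
          rw [← Real.exp_add]
          congr 1
          ring
        rw [e2]
        ring
      rw [e1]
      refine mul_le_mul (hρ.logc x y t h0 h1) (Real.exp_le_exp.2 (neg_le_neg ?_))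
        (Real.exp_pos _).le (hρ.nonneg _)
      refine div_le_div_of_nonneg_right ?_ (by linarith)
      have e3 : (1 - t) • x + t • y - ((1 - t) • p + t • q) =
          (1 - t) • (x - p) + t • (y - q) := by
        rw [smul_sub, smul_sub]
        abel
      rw [e3]
      exact norm_conv _ _ t h0.le h1.le)
  rw [← zz_lint hρ h, ← zz_lint hρ h, ← zz_lint hρ h,
    ENNReal.ofReal_rpow_of_nonneg (hz p).le t1.le, ENNReal.ofReal_rpow_of_nonneg (hz q).le h0.le,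
    ← ENNReal.ofReal_mul (Real.rpow_nonneg (hz p).le _)] at key
  exact (ENNReal.ofReal_le_ofReal_iff (hz _).le).1 key

theorem smz : S_SMZ := by
  intro κ _ ρ hρ ε hε
  have hz := fun y => Pool.Agent.H888R2.KT.N3x.zz_pos' hρ ε y
  refine ⟨hz, ?_, ?_⟩
  · refine ContDiff.neg ?_
    rw [contDiff_infty]
    intro n
    exact (log_zz_smooth hρ ε hε n).of_le le_self_add
  · refine ⟨convex_univ, fun x _ y _ a b ha hb hab => ?_⟩
    rcases ha.eq_or_lt with h0 | h0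
    · have hb1 : b = 1 := by linarith
      rw [← h0, hb1]
      simp
    rcases hb.eq_or_lt with h1 | h1
    · have ha1 : a = 1 := by linarith
      rw [← h1, ha1]
      simp
    have ha' : a = 1 - b := by linarith
    have hb1 : b < 1 := by linarith
    have key := zz_logc hρ ε hε x y b h1 hb1
    rw [← ha'] at key
    have e1 := Real.log_le_log (mul_pos (Real.rpow_pos_of_pos (hz x) _)
      (Real.rpow_pos_of_pos (hz y) _)) key
    rw [Real.log_mul (Real.rpow_pos_of_pos (hz x) _).ne' (Real.rpow_pos_of_pos (hz y) _).ne',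
      Real.log_rpow (hz x), Real.log_rpow (hz y)] at e1
    simp only [smul_eq_mul]
    linarith

end Pool.Agent.Q65.EM

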