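import Pool.Agent.Q86.EM.Stm

/-!
# The law of the channel output and the adjoint of the Gaussian average
-/

set_option autoImplicit false

namespace Pool.Agent.Q65.EM

open MeasureTheory Set Filter Topology
open scoped ENNReal InnerProductSpace ContDiff
open Pool.Agent.H888R2.KT (LC pst gs zz gc)
open Pool.Agent.H212R2.KLS (mu Bdd)
open Pool.Agent.Q86.EM

variable {κ : Type} [Fintype κ]

theorem zz_cont {ρ : Eu κ → ℝ} (hρ : LC ρ) (h : ℝ) (hh : 0 < h) : Continuous (zz h ρ) := by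
  have h2 : ∀ y, HasFDerivAt (fun y : Eu κ =>
      ∫ x, (1 : ℝ) * Real.exp (-(‖x - y‖ ^ 2 / (2 * h))) ∂(mu ρ)) _ y :=
    fun y => Pool.Agent.H888R2.KT.N3x.main hρ h hh (fun _ => 1) continuous_const y
  have e2 : (fun y : Eu κ =>
      ∫ x, (1 : ℝ) * Real.exp (-(‖x - y‖ ^ 2 / (2 * h))) ∂(mu ρ)) = zz h ρ := by
    funext z
    unfold zz
    simp only [one_mul]
  rw [← e2]
  exact continuous_iff_continuousAt.2 fun y => (h2 y).continuousAt

theorem dens_meas {ρ : Eu κ → ℝ} (hρ : LC ρ) (h : ℝ) (hh : 0 < h) :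
    Measurable fun y => ENNReal.ofReal (zz h ρ y / gc κ h) :=
  ((zz_cont hρ h hh).div_const _).measurable.ennreal_ofReal

theorem dens_toReal {ρ : Eu κ → ℝ} (hρ : LC ρ) (h : ℝ) (hh : 0 < h) (y : Eu κ) :
    (ENNReal.ofReal (zz h ρ y / gc κ h)).toReal = zz h ρ y / gc κ h :=
  ENNReal.toReal_ofReal (div_nonneg (Pool.Agent.H888R2.KT.zz_pos hρ h hh y).1.le
    (Pool.Agent.H888R2.KT.gc_pos h hh).1.le)

theorem ny_int {ρ : Eu κ → ℝ} (hρ : LC ρ) (h : ℝ) (hh : 0 < h) (F : Eu κ → ℝ) :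
    ∫ y, F y ∂(ny h ρ) = (gc κ h)⁻¹ * ∫ y, F y * zz h ρ y := by
  unfold ny
  rw [integral_withDensity_eq_integral_toReal_smul (dens_meas hρ h hh)
    (Filter.Eventually.of_forall fun _ => ENNReal.ofReal_lt_top), ← integral_const_mul]
  refine integral_congr_ae (Filter.Eventually.of_forall fun y => ?_)
  show (ENNReal.ofReal (zz h ρ y / gc κ h)).toReal • F y = _
  rw [dens_toReal hρ h hh, smul_eq_mul]
  ring

theorem ny_integrable {ρ : Eu κ → ℝ} (hρ : LC ρ) (h : ℝ) (hh : 0 < h) (F : Eu κ → ℝ)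
    (hF : Integrable fun y => F y * zz h ρ y) : Integrable F (ny h ρ) := by
  unfold ny
  rw [integrable_withDensity_iff_integrable_smul' (dens_meas hρ h hh)
    (Filter.Eventually.of_forall fun _ => ENNReal.ofReal_lt_top)]
  refine (hF.const_mul (gc κ h)⁻¹).congr (Filter.Eventually.of_forall fun y => ?_)
  show _ = (ENNReal.ofReal (zz h ρ y / gc κ h)).toReal • F y
  rw [dens_toReal hρ h hh, smul_eq_mul]
  ring

theorem fub : S_FUB := by
  intro κ _ ρ hρ h1 h hh
  have hgc := (Pool.Agent.H888R2.KT.gc_pos (κ := κ) h hh).1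
  constructor
  · obtain ⟨i1, e1⟩ := Pool.Agent.H888R2.KT.N9ax.fub1 hρ h hh (fun _ => 1) continuous_const
    simp only [Pool.Agent.H888R2.KT.N9ax.pst_one hρ h hh, one_mul] at i1 e1
    have : IsProbabilityMeasure (mu ρ) := ⟨h1⟩
    rw [integral_const, smul_eq_mul, mul_one, probReal_univ, ← integral_const_mul] at e1
    refine ⟨?_⟩
    unfold ny
    rw [withDensity_apply _ MeasurableSet.univ, Measure.restrict_univ,
      ← ofReal_integral_eq_lintegral_ofReal (i1.div_const _) (Filter.Eventually.of_forall fun y =>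
        div_nonneg (Pool.Agent.H888R2.KT.zz_pos hρ h hh y).1.le hgc.le)]
    have e2 : ∫ y, zz h ρ y / gc κ h = 1 := by
      rw [e1]
      refine integral_congr_ae (Filter.Eventually.of_forall fun y => ?_)
      exact div_eq_inv_mul _ _
    rw [e2, ENNReal.ofReal_one]
  · intro u φ hu hφ B hB
    obtain ⟨i1, -, e1⟩ := Pool.Agent.H888R2.KT.fub hρ h hh u φ hu hφ B hB
    refine ⟨ny_integrable hρ h hh _ i1, ?_⟩
    rw [ny_int hρ h hh, e1]

end Pool.Agent.Q65.EM

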