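import Pool.Agent.Q86.EM.Stm

/-!
# Facts on the Gaussian average
-/

set_option autoImplicit false

namespace Pool.Agent.Q65.EM

open MeasureTheory Set Filter Topology
open scoped ENNReal InnerProductSpace ContDiff
open Pool.Agent.H888R2.KT (LC pst gs zz gc)
open Pool.Agent.H212R2.KLS (mu Bdd)
open Pool.Agent.Q86.EM

variable {κ : Type} [Fintype κ]

theorem gs_mono (h : ℝ) (hh : 0 < h) (φ ψ : Eu κ → ℝ) (hφ : Continuous φ) (hψ : Continuous ψ)
    (B B' : ℝ) (hb : ∀ y, |φ y| ≤ B) (hb' : ∀ y, |ψ y| ≤ B') (hle : ∀ y, φ y ≤ ψ y) (x : Eu κ) :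
    gs h φ x ≤ gs h ψ x := by
  unfold gs
  refine div_le_div_of_nonneg_right ?_ (Pool.Agent.H888R2.KT.gc_pos h hh).1.le
  refine integral_mono (Pool.Agent.H888R2.KT.N8x.gs_int h hh φ hφ B hb x)
    (Pool.Agent.H888R2.KT.N8x.gs_int h hh ψ hψ B' hb' x) fun y => ?_
  exact mul_le_mul_of_nonneg_right (hle y) (Real.exp_pos _).le

theorem gs_const (h : ℝ) (hh : 0 < h) (c : ℝ) (x : Eu κ) : gs h (fun _ => c) x = c := by
  have h1 := Pool.Agent.H888R2.KT.N8x.gs_mul h c (fun _ : Eu κ => 1) x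
  rw [Pool.Agent.H888R2.KT.N9ax.gs_one h hh, mul_one] at h1
  simpa only [mul_one] using h1

theorem gs_abs (h : ℝ) (hh : 0 < h) (φ ψ : Eu κ → ℝ) (hφ : Continuous φ) (hψ : Continuous ψ)
    (B : ℝ) (hb : ∀ y, |ψ y| ≤ B) (hle : ∀ y, |φ y| ≤ ψ y) (x : Eu κ) :
    |gs h φ x| ≤ gs h ψ x := by
  have hb' : ∀ y, |φ y| ≤ B := fun y => (hle y).trans ((le_abs_self _).trans (hb y))
  rw [abs_le]
  constructor
  · have h1 := Pool.Agent.H888R2.KT.N8x.gs_mul h (-1) ψ x
    have h2 := gs_mono h hh (fun y => -1 * ψ y) φ (hψ.const_mul _) hφ B B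
      (fun y => by rw [abs_mul, abs_neg, abs_one, one_mul]; exact hb y) hb'
      (fun y => by linarith [(abs_le.1 (hle y)).1]) x
    linarith
  · exact gs_mono h hh φ ψ hφ hψ B B hb' hb (fun y => (le_abs_self _).trans (hle y)) x

theorem gsf : S_GSF := by
  intro κ _ h hh
  refine ⟨fun φ ψ hφ hψ B hb hb' => ⟨?_, ?_, ?_, ?_, ?_, ?_⟩, fun c x => gs_const h hh c x, ?_⟩
  · exact Pool.Agent.H888R2.KT.N7x.cont_gs h hh φ hφ B hb
  · intro x
    have hB : |B| = B := abs_of_nonneg ((abs_nonneg _).trans (hb x))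
    have h1 := gs_abs h hh φ (fun _ => B) hφ continuous_const B (fun _ => hB.le) hb x
    rwa [gs_const h hh] at h1
  · intro x
    set c := gs h φ x with hc
    have hφ2 : ∀ y, |φ y ^ 2| ≤ B ^ 2 := fun y => by
      rw [abs_pow]
      exact pow_le_pow_left₀ (abs_nonneg _) (hb y) 2
    have hc1 : ∀ y, |-2 * c * φ y| ≤ |-2 * c| * B := fun y => by
      rw [abs_mul]
      exact mul_le_mul_of_nonneg_left (hb y) (abs_nonneg _)
    have h1 := gs_mono h hh (fun _ => -c ^ 2) (fun y => φ y ^ 2 + -2 * c * φ y) continuous_const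
      (by fun_prop) |(-c ^ 2)| (B ^ 2 + |-2 * c| * B) (fun _ => le_rfl)
      (fun y => (abs_add_le _ _).trans (add_le_add (hφ2 y) (hc1 y)))
      (fun y => by nlinarith [sq_nonneg (φ y - c)]) x
    rw [gs_const h hh, Pool.Agent.H888R2.KT.N8x.gs_add h hh (fun y => φ y ^ 2)
      (fun y => -2 * c * φ y) (by fun_prop) (by fun_prop) _ _ hφ2 hc1,
      Pool.Agent.H888R2.KT.N8x.gs_mul, ← hc] at h1
    nlinarith
  · intro x
    exact Pool.Agent.H888R2.KT.N8x.gs_add h hh φ ψ hφ hψ B B hb hb' x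
  · intro c x
    exact Pool.Agent.H888R2.KT.N8x.gs_mul h c φ x
  · intro hle x
    exact gs_mono h hh φ ψ hφ hψ B B hb hb' hle x
  · intro φ hφ B hb hb1
    obtain ⟨h1, h2⟩ := Pool.Agent.H888R2.KT.gs_deriv h hh φ hφ B hb hb1
    refine ⟨h1, fun x => ?_⟩
    have hdc : Continuous (fderiv ℝ φ) := hφ.continuous_fderiv one_ne_zero
    have hn0 : 0 ≤ gs h (fun y => ‖fderiv ℝ φ y‖) x := by
      have h3 := gs_abs h hh (fun _ => 0) (fun y => ‖fderiv ℝ φ y‖) continuous_const hdc.norm B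
        (fun y => by rw [abs_norm]; exact hb1 y) (fun y => by rw [abs_zero]; exact norm_nonneg _) x
      exact (abs_nonneg _).trans h3
    refine ContinuousLinearMap.opNorm_le_bound _ hn0 fun w => ?_
    rw [h2 x w, Real.norm_eq_abs, mul_comm, ← Pool.Agent.H888R2.KT.N8x.gs_mul]
    refine gs_abs h hh (fun y => fderiv ℝ φ y w) (fun y => ‖w‖ * ‖fderiv ℝ φ y‖)
      (hdc.clm_apply continuous_const) (continuous_const.mul hdc.norm) (‖w‖ * B) (fun y => ?_)
      (fun y => ?_) x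
    · rw [abs_mul, abs_norm, abs_norm]
      exact mul_le_mul_of_nonneg_left (hb1 y) (norm_nonneg _)
    · rw [← Real.norm_eq_abs, mul_comm]
      exact ContinuousLinearMap.le_opNorm _ _

end Pool.Agent.Q65.EM

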