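import Pool.Agent.Q65.EM.Fub
import Pool.Agent.Q65.EM.Gsf

/-!
# One step of the iteration decreases the functional
-/

set_option autoImplicit false

namespace Pool.Agent.Q65.EM

open MeasureTheory Set Filter Topology
open scoped ENNReal InnerProductSpace ContDiff
open Pool.Agent.H888R2.KT (LC pst gs zz gc)
open Pool.Agent.H212R2.KLS (mu Bdd)
open Pool.Agent.Q86.EM

variable {κ : Type} [Fintype κ]

theorem Ps_cont : Continuous Ps := by
  unfold Ps
  fun_prop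

theorem Kp_cont : Continuous Kp := by
  unfold Kp
  fun_prop

theorem vc_abs {v : Eu κ → ℝ} (hv : Vc v) (y : Eu κ) : |v y| ≤ 1 := by
  rw [abs_of_nonneg (hv.nn y)]
  exact hv.le y

/-- the Gaussian average of a function with values in the unit interval -/
theorem vc_gs (h2 : S_GSF) {v : Eu κ → ℝ} (hv : Vc v) (h : ℝ) (hh : 0 < h) :
    Vc (Pool.Agent.H888R2.KT.gs h v) := by
  have h0 : ∀ y : Eu κ, |(0 : ℝ)| ≤ 1 := fun _ => by rw [abs_zero]; exact zero_le_one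
  have h1 : ∀ y : Eu κ, |(1 : ℝ)| ≤ 1 := fun _ => by rw [abs_one]
  obtain ⟨a1, a2, -, -, -, a6⟩ := (h2 κ h hh).1 v (fun _ => 1) hv.cont continuous_const 1
    (vc_abs hv) h1
  obtain ⟨-, -, -, -, -, b6⟩ := (h2 κ h hh).1 (fun _ => 0) v continuous_const hv.cont 1
    h0 (vc_abs hv)
  refine ⟨a1, fun y => ?_, fun y => ?_⟩
  · have := b6 hv.nn y
    rwa [(h2 κ h hh).2.1] at this
  · have := a6 hv.le y
    rwa [(h2 κ h hh).2.1] at this

/-- the posterior mean of a function with values in the unit interval -/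
theorem vc_pst {ρ : Eu κ → ℝ} (hρ : LC ρ) {v : Eu κ → ℝ} (hv : Vc v) (h : ℝ) (hh : 0 < h) :
    Vc (Pool.Agent.H888R2.KT.pst h ρ v) := by
  refine ⟨(Pool.Agent.H888R2.KT.N4x.diff hρ h hh v hv.cont).continuous, fun y => ?_, fun y => ?_⟩
  · have := Pool.Agent.H888R2.KT.N5x.pst_mono hρ h hh y (fun _ => 0) v continuous_const hv.cont hv.nn
    rwa [Pool.Agent.H888R2.KT.N5x.pst_const hρ h hh] at this
  · have := Pool.Agent.H888R2.KT.N5x.pst_mono hρ h hh y v (fun _ => 1) hv.cont continuous_const hv.le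
    rwa [Pool.Agent.H888R2.KT.N5x.pst_const hρ h hh] at this

theorem vc_ps {v : Eu κ → ℝ} (hv : Vc v) : Vc fun x => Ps (v x) :=
  ⟨Ps_cont.comp hv.cont, fun y => Ps_nn (hv.nn y) (hv.le y), fun y => Ps_le (hv.nn y) (hv.le y)⟩

theorem vc_seg {v w : Eu κ → ℝ} (hv : Vc v) (hw : Vc w) (θ : ℝ) (h0 : 0 ≤ θ) (h1 : θ ≤ 1) :
    Vc fun y => (1 - θ) * v y + θ * w y := by
  refine ⟨(hv.cont.const_mul _).add (hw.cont.const_mul _), fun y => ?_, fun y => ?_⟩
  · have a1 := mul_nonneg (sub_nonneg.2 h1) (hv.nn y)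
    have a2 := mul_nonneg h0 (hw.nn y)
    linarith
  · have a1 := mul_le_mul_of_nonneg_left (hv.le y) (sub_nonneg.2 h1)
    have a2 := mul_le_mul_of_nonneg_left (hw.le y) h0
    linarith

theorem ite (h1 : S_FUB) (h2 : S_GSF) : S_ITE := by
  intro κ _ ρ hρ hm h hh v hv
  set v₁ := Pool.Agent.H888R2.KT.pst h ρ fun x => Ps (gs h v x) with hv₁
  have hGv := vc_gs h2 hv h hh
  have hw := vc_ps hGv
  have hV₁ : Vc v₁ := vc_pst hρ hw h hh
  refine ⟨hV₁, fun θ hθ0 hθ1 => ?_⟩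
  have hVθ := vc_seg hv hV₁ θ hθ0 hθ1
  refine ⟨hVθ, ?_⟩
  have hP : IsProbabilityMeasure (mu ρ) := ⟨hm⟩
  obtain ⟨hN, hfub⟩ := h1 κ ρ hρ hm h hh
  have hGθ := vc_gs h2 hVθ h hh
  -- the Gaussian average of the segment
  have hφb : ∀ y, |θ * (v₁ y - v y)| ≤ 1 := by
    intro y
    rw [abs_mul, abs_of_nonneg hθ0]
    have e1 : |v₁ y - v y| ≤ 1 := by
      rw [abs_le]
      constructor <;> linarith [hV₁.nn y, hV₁.le y, hv.nn y, hv.le y]
    calc θ * |v₁ y - v y| ≤ 1 * 1 := mul_le_mul hθ1 e1 (abs_nonneg _) zero_le_one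
      _ = 1 := one_mul 1
  have hφc : Continuous fun y => θ * (v₁ y - v y) := (hV₁.cont.sub hv.cont).const_mul θ
  have hGseg : ∀ x, gs h (fun y => (1 - θ) * v y + θ * v₁ y) x =
      gs h v x + gs h (fun y => θ * (v₁ y - v y)) x := by
    intro x
    have e1 := ((h2 κ h hh).1 v (fun y => θ * (v₁ y - v y)) hv.cont hφc 1 (vc_abs hv) hφb).2.2.2.1 x
    rw [← e1]
    congr 1
    funext y
    ring
  obtain ⟨i3, e3⟩ := hfub (fun x => Ps (gs h v x)) (fun y => θ * (v₁ y - v y)) hw.cont hφc 1 hφb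
  -- convexity
  have hconv : ∀ x, Kp (gs h v x) + Ps (gs h v x) * gs h (fun y => θ * (v₁ y - v y)) x ≤
      Kp (gs h (fun y => (1 - θ) * v y + θ * v₁ y) x) := by
    intro x
    have e4 := Kp_conv (hGθ.nn x) (hGθ.le x) (hGv.nn x) (hGv.le x)
    rw [hGseg] at e4 ⊢
    rwa [add_sub_cancel_left] at e4
  have hGc : Continuous (gs h (fun y => θ * (v₁ y - v y))) :=
    ((h2 κ h hh).1 _ _ hφc hφc 1 hφb hφb).1
  have j1 : Integrable (fun x => Kp (gs h v x)) (mu ρ) :=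
    Pool.Agent.H888R2.KT.N9ax.integrable hρ (Kp_cont.comp hGv.cont)
  have j2 : Integrable (fun x => Ps (gs h v x) * gs h (fun y => θ * (v₁ y - v y)) x) (mu ρ) :=
    Pool.Agent.H888R2.KT.N9ax.integrable hρ (hw.cont.mul hGc)
  have j3 : Integrable (fun x => Kp (gs h (fun y => (1 - θ) * v y + θ * v₁ y) x)) (mu ρ) :=
    Pool.Agent.H888R2.KT.N9ax.integrable hρ (Kp_cont.comp hGθ.cont)
  have hI : ∫ x, Kp (gs h v x) ∂(mu ρ) + ∫ y, v₁ y * (θ * (v₁ y - v y)) ∂(ny h ρ) ≤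
      ∫ x, Kp (gs h (fun y => (1 - θ) * v y + θ * v₁ y) x) ∂(mu ρ) := by
    rw [hv₁, ← e3, ← hv₁, ← integral_add j1 j2]
    exact integral_mono (j1.add j2) j3 hconv
  -- the squares
  have k0 : ∀ f : Eu κ → ℝ, Continuous f → (∀ y, |f y| ≤ 1) → Integrable f (ny h ρ) := by
    intro f hf hb
    exact Integrable.of_bound hf.aestronglyMeasurable 1
      (Filter.Eventually.of_forall fun y => by rw [Real.norm_eq_abs]; exact hb y)
  have sq1 : ∀ a : ℝ, |a| ≤ 1 → |a ^ 2| ≤ 1 := fun a ha => by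
    rw [abs_pow]
    exact pow_le_one₀ (abs_nonneg _) ha
  have k1 : Integrable (fun y => ((1 - θ) * v y + θ * v₁ y) ^ 2) (ny h ρ) :=
    k0 _ (hVθ.cont.pow 2) fun y => sq1 _ (vc_abs hVθ y)
  have k2 : Integrable (fun y => v y ^ 2) (ny h ρ) := k0 _ (hv.cont.pow 2) fun y => sq1 _ (vc_abs hv y)
  have k3 : Integrable (fun y => (v₁ y - v y) ^ 2) (ny h ρ) :=
    k0 _ ((hV₁.cont.sub hv.cont).pow 2) fun y => sq1 _ (by
      rw [abs_le]
      constructor <;> linarith [hV₁.nn y, hV₁.le y, hv.nn y, hv.le y])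
  have k4 : Integrable (fun y => v₁ y * (θ * (v₁ y - v y))) (ny h ρ) := by
    rw [hv₁]
    exact i3
  have hS : 1 / 2 * ∫ y, ((1 - θ) * v y + θ * v₁ y) ^ 2 ∂(ny h ρ) -
      ∫ y, v₁ y * (θ * (v₁ y - v y)) ∂(ny h ρ) +
      1 / 2 * (1 - (1 - θ) ^ 2) * ∫ y, (v₁ y - v y) ^ 2 ∂(ny h ρ) =
      1 / 2 * ∫ y, v y ^ 2 ∂(ny h ρ) := by
    have l1 : Integrable (fun y => 1 / 2 * ((1 - θ) * v y + θ * v₁ y) ^ 2) (ny h ρ) :=
      k1.const_mul _
    have l3 : Integrable (fun y => 1 / 2 * (1 - (1 - θ) ^ 2) * (v₁ y - v y) ^ 2) (ny h ρ) :=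
      k3.const_mul _
    have l5 : Integrable (fun y => 1 / 2 * ((1 - θ) * v y + θ * v₁ y) ^ 2 -
        v₁ y * (θ * (v₁ y - v y))) (ny h ρ) := l1.sub k4
    rw [← integral_const_mul, ← integral_const_mul, ← integral_const_mul, ← integral_sub l1 k4,
      ← integral_add l5 l3]
    refine integral_congr_ae (Filter.Eventually.of_forall fun y => ?_)
    show 1 / 2 * ((1 - θ) * v y + θ * v₁ y) ^ 2 - v₁ y * (θ * (v₁ y - v y)) +
      1 / 2 * (1 - (1 - θ) ^ 2) * (v₁ y - v y) ^ 2 = 1 / 2 * v y ^ 2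
    ring
  unfold JJ
  linarith

end Pool.Agent.Q65.EM

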